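import Mathlib

/-!
# The dijoin with a long periodic tournament adds one to the inversion number four

Vectors of `𝔽₂⁴` are quadruples of Booleans. If `u · u = 1` then the orthogonal space of `u` embeds
into `𝔽₂³` with the same dot products.
-/

set_option autoImplicit false

namespace Pool.Agent.Run7.h121.DIJ

/-- Vectors of `𝔽₂⁴`. -/
abbrev B4 := Bool × Bool × Bool × Bool

/-- Vectors of `𝔽₂³`. -/
abbrev B3 := Bool × Bool × Bool

def dot4 : B4 → B4 → Bool
  | (a, b, c, d), (a', b', c', d') => xor (xor (a && a') (b && b')) (xor (c && c') (d && d'))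

def dot3 : B3 → B3 → Bool
  | (a, b, c), (a', b', c') => xor (xor (a && a') (b && b')) (c && c')

def add4 : B4 → B4 → B4
  | (a, b, c, d), (a', b', c', d') => (xor a a', xor b b', xor c c', xor d d')

/-- The map from the orthogonal space of `u` to `𝔽₂³`. -/
def phi : B4 → B4 → B3
  | (true, false, false, false), (_, b, c, d) => (b, c, d)
  | (false, true, false, false), (a, _, c, d) => (a, c, d)
  | (false, false, true, false), (a, b, _, d) => (a, b, d)
  | (false, false, false, true), (a, b, c, _) => (a, b, c)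
  | (false, true, true, true), (a, b, c, _) => (xor b a, xor c a, xor (xor b c) a)
  | (true, false, true, true), (a, b, c, _) => (xor a b, xor c b, xor (xor a c) b)
  | (true, true, false, true), (a, b, c, _) => (xor a c, xor b c, xor (xor a b) c)
  | (true, true, true, false), (a, b, _, d) => (xor a d, xor b d, xor (xor a b) d)
  | _, _ => (false, false, false)

theorem phi_spec (u x y : B4) (hu : dot4 u u = true) (hx : dot4 x u = false)
    (hy : dot4 y u = false) : dot3 (phi u x) (phi u y) = dot4 x y := by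
  revert hu hx hy
  obtain ⟨a, b, c, d⟩ := u
  obtain ⟨x1, x2, x3, x4⟩ := x
  obtain ⟨y1, y2, y3, y4⟩ := y
  revert a b c d x1 x2 x3 x4 y1 y2 y3 y4
  decide +kernel

theorem dot_comm (x y : B4) : dot4 x y = dot4 y x := by
  obtain ⟨x1, x2, x3, x4⟩ := x
  obtain ⟨y1, y2, y3, y4⟩ := y
  revert x1 x2 x3 x4 y1 y2 y3 y4
  decide +kernel

theorem dot_add (x a b : B4) : dot4 x (add4 a b) = xor (dot4 x a) (dot4 x b) := by
  obtain ⟨a1, a2, a3, a4⟩ := a
  obtain ⟨x1, x2, x3, x4⟩ := x
  obtain ⟨y1, y2, y3, y4⟩ := b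
  revert a1 a2 a3 a4 x1 x2 x3 x4 y1 y2 y3 y4
  decide +kernel

theorem dot_add_self (a b : B4) : dot4 (add4 a b) (add4 a b) = xor (dot4 a a) (dot4 b b) := by
  obtain ⟨a1, a2, a3, a4⟩ := a
  obtain ⟨y1, y2, y3, y4⟩ := b
  revert a1 a2 a3 a4 y1 y2 y3 y4
  decide +kernel

open Classical in
/-- The vector of a vertex: which of the four sets contain it. -/
noncomputable def vec {V : Type} (X : Fin 4 → Set V) (a : V) : B4 :=
  (decide (a ∈ X 0), decide (a ∈ X 1), decide (a ∈ X 2), decide (a ∈ X 3))

open Classical in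
theorem odd4 {V : Type} (X : Fin 4 → Set V) (a b : V) :
    Odd (Nat.card {i : Fin 4 // a ∈ X i ∧ b ∈ X i}) ↔ dot4 (vec X a) (vec X b) = true := by
  rw [Nat.card_eq_fintype_card, Fintype.card_subtype, Finset.card_filter, Fin.sum_univ_four]
  unfold vec dot4
  by_cases a0 : a ∈ X 0 <;> by_cases a1 : a ∈ X 1 <;> by_cases a2 : a ∈ X 2 <;>
    by_cases a3 : a ∈ X 3 <;> by_cases b0 : b ∈ X 0 <;> by_cases b1 : b ∈ X 1 <;>
    by_cases b2 : b ∈ X 2 <;> by_cases b3 : b ∈ X 3 <;>
    simp only [a0, a1, a2, a3, b0, b1, b2, b3, and_true, and_false, true_and, false_and, if_true,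
      if_false, decide_true, decide_false] <;> decide

open Classical in
theorem odd3 {V : Type} (X : Fin 3 → Set V) (a b : V) :
    Odd (Nat.card {i : Fin 3 // a ∈ X i ∧ b ∈ X i}) ↔
      dot3 (decide (a ∈ X 0), decide (a ∈ X 1), decide (a ∈ X 2))
        (decide (b ∈ X 0), decide (b ∈ X 1), decide (b ∈ X 2)) = true := by
  rw [Nat.card_eq_fintype_card, Fintype.card_subtype, Finset.card_filter, Fin.sum_univ_three]
  unfold dot3
  by_cases a0 : a ∈ X 0 <;> by_cases a1 : a ∈ X 1 <;> by_cases a2 : a ∈ X 2 <;>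
    by_cases b0 : b ∈ X 0 <;> by_cases b1 : b ∈ X 1 <;> by_cases b2 : b ∈ X 2 <;>
    simp only [a0, a1, a2, b0, b1, b2, and_true, and_false, true_and, false_and, if_true,
      if_false, decide_true, decide_false] <;> decide

/-- The relation after the inversions with vectors `f`. -/
def Rel {V : Type} (base : V → V → Prop) (f : V → B4) (a b : V) : Prop :=
  (base a b ∧ dot4 (f a) (f b) = false) ∨ (base b a ∧ dot4 (f a) (f b) = true)

theorem rel_of {V : Type} {base : V → V → Prop} {f : V → B4} {a b : V} (h : base a b)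
    (hf : dot4 (f a) (f b) = false) : Rel base f a b := Or.inl ⟨h, hf⟩

theorem rel_rev {V : Type} {base : V → V → Prop} {f : V → B4} {a b : V} (h : base a b)
    (hf : dot4 (f a) (f b) = true) : Rel base f b a := Or.inr ⟨h, by rw [dot_comm]; exact hf⟩

theorem no3 {V : Type} {R : V → V → Prop} (h : ∀ v, ¬ Relation.TransGen R v v) {a b c : V}
    (h1 : R a b) (h2 : R b c) (h3 : R c a) : False :=
  h a (((Relation.TransGen.single h1).tail h2).tail h3)

/-- The main argument: two periods with the same vectors give a vector `u` with `u · u = 1`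
orthogonal to all vectors of vertices which dominate the two periods. -/
theorem key {V : Type} {base : V → V → Prop} {f : V → B4}
    (h : ∀ v, ¬ Relation.TransGen (Rel base f) v v) {p0 p1 q0 q1 : V}
    (h01 : base p0 p1) (h02 : base p0 q0) (h03 : base p0 q1) (h12 : base p1 q0)
    (h31 : base q1 p1) (h23 : base q0 q1) (hq0 : f q0 = f p0) (hq1 : f q1 = f p1) :
    dot4 (add4 (f p0) (f p1)) (add4 (f p0) (f p1)) = true ∧
      ∀ v, base v p0 → base v p1 → base v q0 → base v q1 →
        dot4 (f v) (add4 (f p0) (f p1)) = false := by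
  have c10 : dot4 (f p1) (f p0) = dot4 (f p0) (f p1) := dot_comm _ _
  rcases hβ : dot4 (f p0) (f p1) with _ | _
  · -- the order is p0, p1, q0, q1
    rw [hβ] at c10
    have a01 : Rel base f p0 p1 := rel_of h01 hβ
    have a12 : Rel base f p1 q0 := rel_of h12 (by rw [hq0]; exact c10)
    have a23 : Rel base f q0 q1 := rel_of h23 (by rw [hq0, hq1]; exact hβ)
    have hα : dot4 (f p0) (f p0) = false := by
      by_contra hcon
      rw [Bool.not_eq_false] at hcon
      exact no3 h a01 a12 (rel_rev h02 (by rw [hq0]; exact hcon))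
    have hγ : dot4 (f p1) (f p1) = true := by
      by_contra hcon
      rw [Bool.not_eq_true] at hcon
      exact no3 h a12 a23 (rel_of h31 (by rw [hq1]; exact hcon))
    refine ⟨by rw [dot_add_self, hα, hγ]; rfl, fun v v0 v1 v2 v3 => ?_⟩
    rw [dot_add]
    rcases h0 : dot4 (f v) (f p0) with _ | _ <;> rcases h1 : dot4 (f v) (f p1) with _ | _
    · rfl
    · exfalso
      exact no3 h (rel_of v2 (by rw [hq0]; exact h0)) a23 (rel_rev v3 (by rw [hq1]; exact h1))
    · exfalso
      exact no3 h (rel_rev v2 (by rw [hq0]; exact h0)) (rel_of v1 h1) a12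
    · rfl
  · -- the order is q1, q0, p1, p0
    rw [hβ] at c10
    have a10 : Rel base f p1 p0 := rel_rev h01 hβ
    have a21 : Rel base f q0 p1 := rel_rev h12 (by rw [hq0]; exact c10)
    have a32 : Rel base f q1 q0 := rel_rev h23 (by rw [hq0, hq1]; exact hβ)
    have hα : dot4 (f p0) (f p0) = true := by
      by_contra hcon
      rw [Bool.not_eq_true] at hcon
      exact no3 h a21 a10 (rel_of h02 (by rw [hq0]; exact hcon))
    have hγ : dot4 (f p1) (f p1) = false := by
      by_contra hcon
      rw [Bool.not_eq_false] at hcon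
      exact no3 h a32 a21 (rel_rev h31 (by rw [hq1]; exact hcon))
    refine ⟨by rw [dot_add_self, hα, hγ]; rfl, fun v v0 v1 v2 v3 => ?_⟩
    rw [dot_add]
    rcases h0 : dot4 (f v) (f p0) with _ | _ <;> rcases h1 : dot4 (f v) (f p1) with _ | _
    · rfl
    · exfalso
      exact no3 h (rel_of v2 (by rw [hq0]; exact h0)) a21 (rel_rev v1 h1)
    · exfalso
      exact no3 h (rel_rev v0 h0) (rel_of v1 h1) a10
    · rfl

theorem liftT {α β : Type} {r : α → α → Prop} {p : β → β → Prop} (f : α → β)
    (h : ∀ a b, r a b → p (f a) (f b)) {a b : α} (hab : Relation.TransGen r a b) :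
    Relation.TransGen p (f a) (f b) := by
  induction hab with
  | single h' => exact Relation.TransGen.single (h _ _ h')
  | tail _ h' ih => exact ih.tail (h _ _ h')

end Pool.Agent.Run7.h121.DIJ
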